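import Pool.Agent.J6H92.SU.Cur0
import Pool.Agent.W603.PV.Main
import Pool.Agent.W603.PV.Ext
import Pool.Agent.W603.CX.Basic

/-!
# Maps from curves with coordinates that are short sums of units: a curve or a height bound
-/

set_option autoImplicit false

open FF MvPolynomial Pool.Agent.W603.LV Pool.Agent.W603.PV
open Pool.Agent.H533R3.SL (cur GU cur_eval_one)

namespace Pool.Agent.J6H92.SU

/-- the exponents of degree `e` -/
noncomputable def expo (r e : ℕ) : Finset (Fin r →₀ ℕ) := Finset.finsuppAntidiag Finset.univ e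

open Classical in
/-- the differences of exponents of the same degree, at most `d` -/
noncomputable def QQ (d r : ℕ) : Finset (Fin r → ℤ) :=
  (Finset.range (d + 1)).biUnion fun e =>
    Finset.image₂ (fun α β : Fin r →₀ ℕ => fun l => (α l : ℤ) - β l) (expo r e) (expo r e)

theorem QQ_sum {d r : ℕ} {q : Fin r → ℤ} (hq : q ∈ QQ d r) : ∑ l, q l = 0 := by
  classical
  unfold QQ at hq
  rw [Finset.mem_biUnion] at hq
  obtain ⟨e, _, he⟩ := hq
  rw [Finset.mem_image₂] at he
  obtain ⟨α, hα, β, hβ, rfl⟩ := he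
  have h1 := (Finset.mem_finsuppAntidiag.1 hα).1
  have h2 := (Finset.mem_finsuppAntidiag.1 hβ).1
  rw [Finset.sum_sub_distrib, sub_eq_zero]
  exact_mod_cast h1.trans h2.symm

/-- a constant -/
noncomputable def K0 (d r : ℕ) : ℕ :=
  ∑ e ∈ Finset.range (d + 1), (expo r e).card *
    ((((expo r e).card - 1) ^ 2 + 1) * (tri (expo r e).card).toNat)

variable {k L : Type} [Field k] [IsAlgClosed k] [CharZero k] [Field L] [Algebra k L] [IsFF k L]
  {n d r : ℕ}

theorem blocks {FF : Set (MvPolynomial (Fin (n + 1)) k)}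
    (hFF : ∀ F ∈ FF, ∃ e, e ≤ d ∧ F.IsHomogeneous e) (S : Finset (Place k L))
    (V : Fin r → Fin (n + 1) → k) (u : Fin r → L) (hu : ∀ j, u j ≠ 0)
    (huS : ∀ j, ∀ P ∉ S, P.ord (u j) = 0)
    (hrel : ∀ F ∈ FF, aeval (fun i => ∑ j, algebraMap k L (V j i) * u j) F = 0)
    (b : Fin r → ℤ)
    (hb : ∀ q ∈ QQ d r, hgt k (mon u q) ≤ K0 d r * max (canDeg k L + S.card) 0 →
      ∑ l, b l * q l = 0) (F : MvPolynomial (Fin (n + 1)) k) (hF : F ∈ FF) (v : ℤ) :
    aeval u (sub (GU (k := k) (L := k) V F)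
      ((GU (k := k) (L := k) V F).support.filter fun α => ∑ j, (α j : ℤ) * b j = v)) = 0 := by
  classical
  obtain ⟨e, hed, he⟩ := hFF F hF
  have hsub : (GU (k := k) (L := k) V F).support ⊆ expo r e := by
    intro α hα
    exact Finset.mem_finsuppAntidiag.2 ⟨GU_sum V he hα, Finset.subset_univ _⟩
  obtain ⟨Q, hQ, hQh, hQb⟩ := eq_blocks S Finset.univ (GU (k := k) (L := k) V F) (expo r e) hsub
    (N := ((expo r e).card - 1) ^ 2 + 1) (Nat.succ_pos _) (Nat.le_succ _)
    (fun α _ j hj => absurd (Finset.mem_univ j) hj) ∅ u (fun j hj => absurd hj (Finset.notMem_empty j))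
    (fun j _ => hu j) (fun j _ P hP => huS j P hP) (by rw [aeval_GU]; exact hrel F hF) u
    (fun l => by rw [if_neg (Finset.notMem_empty l)])
  refine hQb b (fun q hq => hb q ?_ ?_) v
  · unfold QQ
    exact Finset.mem_biUnion.2 ⟨e, Finset.mem_range.2 (Nat.lt_succ_of_le hed), hQ hq⟩
  · refine (hQh q hq).trans ?_
    have h1 : (expo r e).card * ((((expo r e).card - 1) ^ 2 + 1) * (tri (expo r e).card).toNat) ≤
        K0 d r := Finset.single_le_sum
      (f := fun e => (expo r e).card * ((((expo r e).card - 1) ^ 2 + 1) *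
        (tri (expo r e).card).toNat))
      (fun _ _ => Nat.zero_le _) (Finset.mem_range.2 (Nat.lt_succ_of_le hed))
    have h2 : (((expo r e).card * ((((expo r e).card - 1) ^ 2 + 1) *
        (tri (expo r e).card).toNat) : ℕ) : ℤ) ≤ K0 d r := by exact_mod_cast h1
    have h3 := mul_le_mul_of_nonneg_right h2 (le_max_right (canDeg k L + S.card) 0)
    refine le_trans (le_of_eq ?_) h3
    rw [Nat.cast_mul, Nat.cast_mul, Int.toNat_of_nonneg (tri_nonneg _)]
    ring

omit [IsAlgClosed k] in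
theorem hgt_zero : hgt k (0 : L) = 0 := hgt_algebraic isAlgebraic_zero

omit [IsAlgClosed k] in
theorem hgt_comb {ρ : Type} [Fintype ρ] (a : ρ → k) (y : ρ → L) :
    hgt k (∑ j, algebraMap k L (a j) * y j) ≤ ∑ j, hgt k (y j) := by
  classical
  have h1 := hgt_mvpolyF (k := k) (F := k) y (∑ j, C (a j) * X j : MvPolynomial ρ k)
  have h2 : aeval y (∑ j, C (a j) * X j : MvPolynomial ρ k) = ∑ j, algebraMap k L (a j) * y j := by
    rw [map_sum]
    refine Finset.sum_congr rfl fun j _ => ?_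
    rw [map_mul, aeval_X, aeval_C]
  rw [h2] at h1
  have h3 : (∑ j, C (a j) * X j : MvPolynomial ρ k).totalDegree ≤ 1 := by
    refine totalDegree_finsetSum_le fun j _ => ?_
    refine (totalDegree_mul _ _).trans ?_
    rw [totalDegree_C, zero_add, totalDegree_X]
  have h4 : ∀ α : ρ →₀ ℕ, hgt k (algebraMap k L
      (coeff α (∑ j, C (a j) * X j : MvPolynomial ρ k))) = 0 := fun α =>
    hgt_algebraic (isAlgebraic_algebraMap _)
  rw [Finset.sum_congr rfl fun α _ => h4 α, Finset.sum_const_zero, add_zero] at h1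
  have h5 : 0 ≤ ∑ j, hgt k (y j) := Finset.sum_nonneg fun j _ => hgt_nonneg _
  have h6 : (((∑ j, C (a j) * X j : MvPolynomial ρ k).totalDegree : ℕ) : ℤ) ≤ 1 := by
    exact_mod_cast h3
  calc _ ≤ _ := h1
    _ ≤ 1 * ∑ j, hgt k (y j) := mul_le_mul_of_nonneg_right h6 h5
    _ = _ := one_mul _

theorem pht_bound (V : Fin r → Fin (n + 1) → k) (y : Fin r → L)
    (f : Fin (n + 1) → L) (hf : ∃ i, f i ≠ 0)
    (hfy : ∀ i, f i = ∑ j, algebraMap k L (V j i) * y j) :
    pht k f ≤ (2 * (n + 1) : ℕ) * ∑ j, hgt k (y j) := by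
  obtain ⟨l, hl⟩ := hf
  have h0 : 0 ≤ ∑ j, hgt k (y j) := Finset.sum_nonneg fun j _ => hgt_nonneg _
  have h1 : ∀ i, hgt k (f i) ≤ ∑ j, hgt k (y j) := fun i => by
    rw [hfy i]
    exact hgt_comb _ _
  have h2 : ∀ i, hgt k (f i / f l) ≤ 2 * ∑ j, hgt k (y j) := by
    intro i
    by_cases hi : f i = 0
    · rw [hi, zero_div, hgt_zero]
      positivity
    · rw [div_eq_mul_inv]
      refine (hgt_mul hi (inv_ne_zero hl)).trans ?_
      rw [hgt_inv]
      have := h1 i
      have := h1 l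
      linarith
  refine (pht_le f hl).trans ?_
  refine (Finset.sum_le_sum fun i _ => h2 i).trans ?_
  rw [Finset.sum_const, Finset.card_univ, Fintype.card_fin, nsmul_eq_mul]
  refine le_of_eq ?_
  push_cast
  ring

end Pool.Agent.J6H92.SU
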