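import Pool.Agent.W603.LV.Main
import Pool.Agent.H533R3.SL.Cur

/-!
# The curves defined by weights
-/

set_option autoImplicit false

open MvPolynomial Pool.Agent.W603.LV
open Pool.Agent.H533R3.SL (cur GU GU_deg)

namespace Pool.Agent.J6H92.SU

variable {k L : Type} [Field k] [Field L] [Algebra k L] {n r : ℕ}

theorem GU_sum (V : Fin r → Fin (n + 1) → k) {F : MvPolynomial (Fin (n + 1)) k} {e : ℕ}
    (hF : F.IsHomogeneous e) {α : Fin r →₀ ℕ} (hα : α ∈ (GU (k := k) (L := k) V F).support) :
    ∑ j, α j = e := by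
  have h1 : (GU (k := k) (L := k) V F).IsHomogeneous (1 * e) := by
    unfold GU
    refine hF.aeval _ (fun i => ?_)
    refine IsHomogeneous.sum _ _ _ fun j _ => ?_
    simpa using (isHomogeneous_C (Fin r) (V j i)).mul (isHomogeneous_X k j)
  rw [one_mul] at h1
  have h2 := h1 (mem_support_iff.1 hα)
  rw [Finsupp.weight_apply, Finsupp.sum_fintype _ _ (by simp)] at h2
  simpa using h2

theorem aeval_GU (V : Fin r → Fin (n + 1) → k) (u : Fin r → L)
    (F : MvPolynomial (Fin (n + 1)) k) :
    aeval u (GU (k := k) (L := k) V F) = aeval (fun i => ∑ j, algebraMap k L (V j i) * u j) F := by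
  unfold GU
  have h2 := comp_aeval (R := k) (fun i => ∑ j, C (V j i) * X j : Fin (n + 1) →
    MvPolynomial (Fin r) k) (aeval u : MvPolynomial (Fin r) k →ₐ[k] L)
  have h3 := congrArg (fun f => f F) h2
  refine Eq.trans h3 ?_
  show aeval _ F = aeval _ F
  congr 2
  funext i
  rw [map_sum]
  refine Finset.sum_congr rfl fun j _ => ?_
  rw [map_mul, aeval_X, aeval_C]

theorem cur_zero (V : Fin r → Fin (n + 1) → k) (u : Fin r → L) (s : L)
    (F : MvPolynomial (Fin (n + 1)) k) {e : ℕ} (hF : F.IsHomogeneous e) (b : Fin r → ℤ)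
    (l : Fin r → ℕ) (N0 : ℤ) (hl : ∀ j, (l j : ℤ) = b j + N0)
    (h : ∀ v : ℤ, aeval u (sub (GU (k := k) (L := k) V F)
      ((GU (k := k) (L := k) V F).support.filter fun α => ∑ j, (α j : ℤ) * b j = v)) = 0) :
    aeval (cur (fun j i => s * (algebraMap k L (V j i) * u j)) l) F = 0 := by
  classical
  set P : MvPolynomial (Fin r) k := GU (k := k) (L := k) V F with hP
  have h1 : aeval (cur (fun j i => s * (algebraMap k L (V j i) * u j)) l) F =
      aeval (fun j => Polynomial.C (s * u j) * (Polynomial.X : Polynomial L) ^ (l j)) P := by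
    rw [hP]
    unfold GU
    have h2 := comp_aeval (R := k) (fun i => ∑ j, C (V j i) * X j : Fin (n + 1) →
      MvPolynomial (Fin r) k) (aeval (fun j => Polynomial.C (s * u j) *
        (Polynomial.X : Polynomial L) ^ (l j)) : MvPolynomial (Fin r) k →ₐ[k] Polynomial L)
    have h3 := congrArg (fun f => f F) h2
    refine Eq.trans ?_ h3.symm
    show aeval _ F = aeval _ F
    congr 2
    funext i
    unfold cur
    rw [map_sum]
    refine Finset.sum_congr rfl fun j _ => ?_
    have h4 : (aeval (fun j => Polynomial.C (s * u j) * (Polynomial.X : Polynomial L) ^ (l j)) :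
        MvPolynomial (Fin r) k →ₐ[k] Polynomial L) (C (V j i) * X j) =
        algebraMap k (Polynomial L) (V j i) *
          (Polynomial.C (s * u j) * (Polynomial.X : Polynomial L) ^ (l j)) := by
      rw [map_mul, aeval_X, aeval_C]
    rw [h4, IsScalarTower.algebraMap_apply k L (Polynomial L), Polynomial.algebraMap_eq,
      ← mul_assoc, ← Polynomial.C_mul]
    congr 2
    ring
  rw [h1, aeval_def, eval₂_eq']
  ext w
  rw [Polynomial.finsetSum_coeff, Polynomial.coeff_zero]
  have h4 : ∀ α ∈ P.support, (algebraMap k (Polynomial L) (coeff α P) *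
      ∏ j, (Polynomial.C (s * u j) * (Polynomial.X : Polynomial L) ^ (l j)) ^ (α j)).coeff w =
      if ∑ j, (α j : ℤ) * b j = w - e * N0 then
        s ^ e * (algebraMap k L (coeff α P) * ∏ j, u j ^ α j) else 0 := by
    intro α hα
    have h5 : ∑ j, α j = e := GU_sum V hF hα
    have h6 : algebraMap k (Polynomial L) (coeff α P) *
        ∏ j, (Polynomial.C (s * u j) * (Polynomial.X : Polynomial L) ^ (l j)) ^ (α j) =
        Polynomial.C (s ^ e * (algebraMap k L (coeff α P) * ∏ j, u j ^ α j)) *
          Polynomial.X ^ (∑ j, l j * α j) := by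
      have h7 : ∏ j, (Polynomial.C (s * u j) * (Polynomial.X : Polynomial L) ^ (l j)) ^ (α j) =
          Polynomial.C (s ^ e * ∏ j, u j ^ α j) * Polynomial.X ^ (∑ j, l j * α j) := by
        rw [← Finset.prod_pow_eq_pow_sum, ← h5, ← Finset.prod_pow_eq_pow_sum,
          ← Finset.prod_mul_distrib, map_prod, ← Finset.prod_mul_distrib]
        refine Finset.prod_congr rfl fun j _ => ?_
        rw [mul_pow, ← pow_mul, ← Polynomial.C_pow, mul_pow]
      rw [h7, IsScalarTower.algebraMap_apply k L (Polynomial L), Polynomial.algebraMap_eq,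
        ← mul_assoc, ← Polynomial.C_mul]
      congr 2
      ring
    rw [h6, Polynomial.coeff_C_mul_X_pow]
    have h8 : ((∑ j, l j * α j : ℕ) : ℤ) = ∑ j, (α j : ℤ) * b j + e * N0 := by
      push_cast
      rw [← h5]
      push_cast
      rw [Finset.sum_mul, ← Finset.sum_add_distrib]
      refine Finset.sum_congr rfl fun j _ => ?_
      rw [hl j]
      ring
    by_cases hw : w = ∑ j, l j * α j
    · rw [if_pos hw, if_pos (by rw [hw, h8]; ring)]
    · rw [if_neg hw, if_neg]
      intro h9
      apply hw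
      have : (w : ℤ) = ((∑ j, l j * α j : ℕ) : ℤ) := by rw [h8, h9]; ring
      exact_mod_cast this
  rw [Finset.sum_congr rfl h4, ← Finset.sum_filter, ← Finset.mul_sum]
  have h9 := h (w - e * N0)
  rw [aeval_sub] at h9
  rw [h9, mul_zero]

end Pool.Agent.J6H92.SU
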