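import Pool.Agent.J6H92.SU.Spec
import Pool.Agent.W603.CX.Basic
import Pool.Agent.W603.PV.Ext

/-!
# Rational curves give maps of unbounded degree
-/

set_option autoImplicit false

open FF MvPolynomial IntermediateField Pool.Agent.W603.LV
open Pool.Agent.W603.PV (pht hgt_eq_finrank)
open Pool.Agent.W603.CX (hgt_le_pht)
open Pool.Agent.H533R3.SL (cur cur_eval_one)

namespace Pool.Agent.J6H92.SU

variable {k : Type} [Field k] [IsAlgClosed k] [CharZero k] {n r : ℕ}

/-- heights of elements of a field generated by one function -/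
theorem hgt_sub_ge {K : Type} [Field K] [Algebra k K] [IsFF k K] {T g : K}
    (hT : Transcendental k T) (hg : Transcendental k g) (h : g ∈ k⟮T⟯) : hgt k T ≤ hgt k g := by
  rw [hgt_eq_finrank hT, hgt_eq_finrank hg]
  have hle : k⟮g⟯ ≤ k⟮T⟯ := by
    rw [adjoin_simple_le_iff]
    exact h
  have h1 := relfinrank_mul_finrank_top hle
  have h2 := IsFF.finite hg
  have h3 : 0 < Module.finrank k⟮g⟯ K := Module.finrank_pos
  rw [← h1]
  have h4 : 0 < relfinrank k⟮g⟯ k⟮T⟯ := by
    rcases Nat.eq_zero_or_pos (relfinrank k⟮g⟯ k⟮T⟯) with h5 | h5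
    · rw [← h1, h5, zero_mul] at h3
      exact absurd h3 (lt_irrefl 0)
    · exact h5
  exact_mod_cast Nat.le_mul_of_pos_left _ h4

/-- the zero and the pole of the coordinate on the projective line -/
noncomputable def zeroInf (k : Type) [Field k] [CharZero k] : Finset (Place k (RatFunc k)) :=
  (finite_support (k := k) (RatFunc.X : RatFunc k)).toFinset

omit [IsAlgClosed k] in
theorem ord_zeroInf {P : Place k (RatFunc k)} (hP : P ∉ zeroInf k) :
    P.ord (RatFunc.X : RatFunc k) = 0 := by
  by_contra h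
  exact hP (by
    unfold zeroInf
    rw [Set.Finite.mem_toFinset]
    exact h)

/-- the curves have large degree -/
theorem big_deg {p : Fin (n + 1) → Polynomial k} {i j : Fin (n + 1)} (hPj : p j ≠ 0)
    (hij : ∀ c : k, p i ≠ Polynomial.C c * p j) {q : ℕ} (hq : q ≠ 0) :
    (q : ℤ) ≤ pht k (fun l => Polynomial.aeval ((RatFunc.X : RatFunc k) ^ q) (p l)) := by
  have hinf : Infinite k := inferInstance
  obtain ⟨T, hTd⟩ : ∃ T : RatFunc k, T = RatFunc.X := ⟨_, rfl⟩
  rw [← hTd]
  have hTt : Transcendental k T := hTd ▸ RatFunc.transcendental_X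
  have hT0 : T ≠ 0 := by rw [hTd]; exact RatFunc.X_ne_zero
  have hT1 : 1 ≤ hgt k T := by
    by_contra hcon
    obtain ⟨c, hc⟩ := const_of_hgt (k := k) (f := T) (by omega)
    exact hTt (hc ▸ isAlgebraic_algebraMap c)
  have hTq : Transcendental k (T ^ q) := hTt.pow (by omega)
  let y : Fin (n + 1) → RatFunc k := fun l => Polynomial.aeval (T ^ q) (p l)
  have hyT : ∀ l, y l = Polynomial.aeval (T ^ q) (p l) := fun _ => rfl
  have hPi : p i ≠ 0 := by
    intro h0
    apply hij 0
    rw [h0]
    simp
  have hcinj : ∀ p : Polynomial k, Polynomial.aeval (T ^ q) p = 0 → p = 0 := fun p hp =>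
    (transcendental_iff_injective.1 hTq) (by rw [hp, map_zero])
  have hyj : y j ≠ 0 := fun h0 => hPj (hcinj _ (by rw [← hyT]; exact h0))
  have hyi : y i ≠ 0 := fun h0 => hPi (hcinj _ (by rw [← hyT]; exact h0))
  have hg : Transcendental k (y i / y j) := by
    intro halg
    have h2 := IsAlgClosed.degree_eq_one_of_irreducible k (minpoly.irreducible halg.isIntegral)
    obtain ⟨c, hc⟩ := minpoly.mem_range_of_degree_eq_one k _ h2
    have h3 : y i = algebraMap k (RatFunc k) c * y j := by
      have hc' : algebraMap k (RatFunc k) c = y i / y j := hc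
      rw [hc']
      field_simp
    have h4 : p i = Polynomial.C c * p j := by
      have h5 := hcinj (p i - Polynomial.C c * p j) (by
        rw [map_sub, map_mul, Polynomial.aeval_C, ← hyT, ← hyT, h3, sub_self])
      exact sub_eq_zero.1 h5
    exact hij c h4
  have hmemk : y i / y j ∈ IntermediateField.adjoin k {T ^ q} := by
    have h1 : ∀ l, y l ∈ IntermediateField.adjoin k {T ^ q} := by
      intro l
      rw [hyT]
      have h2 := (Polynomial.aeval (⟨T ^ q, IntermediateField.mem_adjoin_simple_self k (T ^ q)⟩ :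
        IntermediateField.adjoin k {T ^ q}) (p l)).2
      rw [Polynomial.aeval_eq_sum_range] at h2 ⊢
      refine sum_mem fun a _ => ?_
      exact (IntermediateField.adjoin k {T ^ q}).smul_mem
        (_root_.pow_mem (IntermediateField.mem_adjoin_simple_self k (T ^ q)) _)
    exact div_mem (h1 i) (h1 j)
  have h2 := hgt_le_pht (k := k) y hyi hyj
  have h3 := hgt_sub_ge hTq hg hmemk
  rw [hgt_pow hT0] at h3
  have h4 : (q : ℤ) ≤ q * hgt k T := by nlinarith [(Nat.cast_nonneg q : (0 : ℤ) ≤ q)]
  exact h4.trans (h3.trans h2)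

omit [IsAlgClosed k] [CharZero k] in
/-- the values of forms on the curves -/
theorem aeval_pow_curve (p : Fin (n + 1) → Polynomial k) (F : MvPolynomial (Fin (n + 1)) k)
    (x : RatFunc k) :
    aeval (fun l => Polynomial.aeval x (p l)) F = Polynomial.aeval x (aeval p F) := by
  have h1 := congrArg (fun f => f F) (comp_aeval (R := k) p (Polynomial.aeval x))
  exact h1.symm

omit [IsAlgClosed k] [CharZero k] in
theorem aeval_ne {p : Fin (n + 1) → Polynomial k} {G : MvPolynomial (Fin (n + 1)) k}
    (hG : aeval p G ≠ 0) {q : ℕ} (hq : q ≠ 0) :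
    aeval (fun l => Polynomial.aeval ((RatFunc.X : RatFunc k) ^ q) (p l)) G ≠ 0 := by
  rw [aeval_pow_curve]
  have hTq : Transcendental k ((RatFunc.X : RatFunc k) ^ q) :=
    RatFunc.transcendental_X.pow (by omega)
  intro h0
  exact hG ((transcendental_iff_injective.1 hTq) (by rw [h0, map_zero]))

end Pool.Agent.J6H92.SU
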