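import Pool.Agent.J6H92.SU.Mov
import Pool.Agent.J6H92.SU.Unb

/-!
# Maps from curves whose coordinates are short sums of units: definitions and the main theorems
-/

set_option autoImplicit false

open FF MvPolynomial Pool.Agent.W603.LV Pool.Agent.W603.PV
open Pool.Agent.H533R3.SL (cur GU cur_eval_one Uniruled exists_G)

namespace Pool.Agent.J6H92.SU

variable {k : Type} [Field k] {n : ℕ}

/-- `f` is the vector of homogeneous coordinates of a morphism to `X = {F = 0 for all F ∈ Φ}` from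
the smooth projective curve with function field `L`, and `f = ∑ j < r, u j • V j`, where the
`u j` are `S`-units (functions without zeros and poles outside the finite set `S` of points of the
curve) and the `V j` are vectors of functions. -/
structure ShortSum (Φ : Set (MvPolynomial (Fin (n + 1)) k)) {L : Type} [Field L] [Algebra k L]
    (S : Finset (Place k L)) {r : ℕ} (V : Fin r → Fin (n + 1) → L) (u : Fin r → L)
    (f : Fin (n + 1) → L) : Prop where
  ne : ∃ i, f i ≠ 0
  mem : ∀ F ∈ Φ, aeval f F = 0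
  unit : ∀ j, u j ≠ 0 ∧ ∀ P ∉ S, P.ord (u j) = 0
  sum : ∀ i, f i = ∑ j, V j i * u j

/-- The degrees of all these morphisms (for all curves and all `S`) whose image is not contained in
`G = 0` are at most `A (max (2 g - 2 + |S|, 0) + ∑ j, ∑ i, deg (V j i))`. -/
def LinearBound (Φ : Set (MvPolynomial (Fin (n + 1)) k)) (G : MvPolynomial (Fin (n + 1)) k)
    (r A : ℕ) : Prop :=
  ∀ (L : Type) [Field L] [Algebra k L] [IsFF k L] (S : Finset (Place k L))
    (V : Fin r → Fin (n + 1) → L) (u : Fin r → L) (f : Fin (n + 1) → L),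
    ShortSum Φ S V u f → aeval f G ≠ 0 →
      pht k f ≤ A * (max (canDeg k L + S.card) 0 + ∑ j, ∑ i, hgt k (V j i))

/-- For the curve with function field `L` and the finite set `S`, the degrees of the morphisms
`f = ∑ j < r, u j • v j` to `X` with `S`-units `u j` and constant vectors `v j` whose image is not
contained in `G = 0` are at most `B`. -/
def BoundOn (Φ : Set (MvPolynomial (Fin (n + 1)) k)) (G : MvPolynomial (Fin (n + 1)) k) (r : ℕ)
    (L : Type) [Field L] [Algebra k L] (S : Finset (Place k L)) (B : ℤ) : Prop :=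
  ∀ (v : Fin r → Fin (n + 1) → k) (u : Fin r → L) (f : Fin (n + 1) → L),
    ShortSum Φ S (fun j i => algebraMap k L (v j i)) u f → aeval f G ≠ 0 → pht k f ≤ B

/-- `T ↦ (p 0 T : … : p n T)` is a nonconstant morphism from the projective line to `X`. -/
def RatCurve (Φ : Set (MvPolynomial (Fin (n + 1)) k)) (p : Fin (n + 1) → Polynomial k) : Prop :=
  (∀ F ∈ Φ, aeval p F = 0) ∧ ∃ i j, p j ≠ 0 ∧ ∀ c : k, p i ≠ Polynomial.C c * p j

theorem ratCurve_cur {Φ : Set (MvPolynomial (Fin (n + 1)) k)} {r : ℕ}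
    {c : Fin r → Fin (n + 1) → k} {l : Fin r → ℕ} (h : ∀ F ∈ Φ, aeval (cur c l) F = 0)
    (hN : ∃ i i', cur c l i * Polynomial.C (∑ j, c j i') ≠
        cur c l i' * Polynomial.C (∑ j, c j i)) : RatCurve Φ (cur c l) := by
  refine ⟨h, ?_⟩
  obtain ⟨i, i', hN⟩ := hN
  by_contra hcon
  push Not at hcon
  apply hN
  by_cases h0 : cur c l i' = 0
  · have h1 := cur_eval_one c l i'
    rw [h0, Polynomial.eval_zero] at h1
    rw [h0, ← h1]
    simp
  · obtain ⟨a, ha⟩ := hcon i i' h0
    have h1 := cur_eval_one c l i'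
    have h2 := cur_eval_one c l i
    rw [ha, Polynomial.eval_mul, Polynomial.eval_C, h1] at h2
    rw [← h2, ha, Polynomial.C_mul]
    ring

theorem aeval_cur_ne {G : MvPolynomial (Fin (n + 1)) k} {r : ℕ}
    {c : Fin r → Fin (n + 1) → k} {l : Fin r → ℕ} (h : aeval (fun i => ∑ j, c j i) G ≠ 0) :
    aeval (cur c l) G ≠ 0 := by
  intro h0
  apply h
  have h1 := congrArg (fun f => f G) (comp_aeval (R := k) (cur c l)
    (Polynomial.aeval (1 : k)))
  have h2 : Polynomial.aeval (1 : k) (aeval (cur c l) G) =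
      aeval (fun i => Polynomial.aeval (1 : k) (cur c l i)) G := h1
  rw [h0, map_zero] at h2
  have h3 : (fun i => Polynomial.aeval (1 : k) (cur c l i)) = fun i => ∑ j, c j i := by
    funext i
    rw [Polynomial.coe_aeval_eq_eval, cur_eval_one]
  rw [h3] at h2
  exact h2.symm

theorem natDegree_cur {r : ℕ} {c : Fin r → Fin (n + 1) → k} {l : Fin r → ℕ} {B : ℕ}
    (hl : ∀ j, l j ≤ B) (i : Fin (n + 1)) : (cur c l i).natDegree ≤ B := by
  unfold cur
  refine Polynomial.natDegree_sum_le_of_forall_le _ _ fun j _ => ?_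
  exact (Polynomial.natDegree_C_mul_X_pow_le _ _).trans (hl j)

variable [IsAlgClosed k] [CharZero k]

/-- **One constant.** -/
theorem uniform (n d r : ℕ) : ∃ A B : ℕ, ∀ (k : Type) [Field k] [IsAlgClosed k] [CharZero k]
    (Φ : Set (MvPolynomial (Fin (n + 1)) k)), (∀ F ∈ Φ, ∃ e, e ≤ d ∧ F.IsHomogeneous e) →
    ∀ G : MvPolynomial (Fin (n + 1)) k,
      (∀ p : Fin (n + 1) → Polynomial k, (∀ i, (p i).natDegree ≤ B) → RatCurve Φ p →
        aeval p G = 0) → LinearBound Φ G r A := by
  obtain ⟨A, Λ, h⟩ := core_mov n d r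
  refine ⟨A, ∑ l ∈ Λ, ∑ j, l j, ?_⟩
  intro k _ _ _ Φ hΦ G hG L _ _ _ S V u f hf hfG
  rcases h k Φ hΦ L S V u f hf.unit hf.sum hf.ne hf.mem with h1 | ⟨c, l, hl, hc, hz, hN⟩
  · exact h1
  · exfalso
    have hc' : (fun i => ∑ j, c j i) = f := funext hc
    obtain ⟨c', hz', hG', hN'⟩ := spec Φ G c l hz (by rw [hc']; exact hfG) (by
      obtain ⟨i, i', hN⟩ := hN
      exact ⟨i, i', by rw [hc i, hc i']; exact hN⟩)
    refine aeval_cur_ne hG' (hG _ (natDegree_cur fun j => ?_) (ratCurve_cur hz' hN'))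
    calc l j ≤ ∑ j, l j := Finset.single_le_sum (f := l) (fun _ _ => Nat.zero_le _)
          (Finset.mem_univ j)
      _ ≤ _ := Finset.single_le_sum (f := fun l : Fin (r * (n + 1)) → ℕ => ∑ j, l j)
          (fun _ _ => Nat.zero_le _) hl

/-- **Rational curves give unbounded degrees.** -/
theorem unbounded {Φ : Set (MvPolynomial (Fin (n + 1)) k)} {G : MvPolynomial (Fin (n + 1)) k}
    {p : Fin (n + 1) → Polynomial k} (hp : RatCurve Φ p) (hG : aeval p G ≠ 0) {r : ℕ}
    (hr : ∀ i, (p i).natDegree < r) {B : ℤ} (hB : BoundOn Φ G r (RatFunc k) (zeroInf k) B) :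
    False := by
  classical
  obtain ⟨hz, i0, j0, hj0, hij⟩ := hp
  have hq : B.toNat + 1 ≠ 0 := by omega
  have hX : (RatFunc.X : RatFunc k) ≠ 0 := RatFunc.X_ne_zero
  have h1 := big_deg (p := p) hj0 hij hq
  have h2 := hB (fun j i => (p i).coeff j) (fun j => (RatFunc.X ^ (B.toNat + 1)) ^ (j : ℕ))
    (fun l => Polynomial.aeval ((RatFunc.X : RatFunc k) ^ (B.toNat + 1)) (p l))
    { ne := ⟨j0, by
        have hTq : Transcendental k ((RatFunc.X : RatFunc k) ^ (B.toNat + 1)) :=
          RatFunc.transcendental_X.pow (by omega)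
        intro h0
        exact hj0 ((transcendental_iff_injective.1 hTq) (by rw [h0, map_zero]))⟩
      mem := fun F hF => by rw [aeval_pow_curve, hz F hF, map_zero]
      unit := fun j => ⟨pow_ne_zero _ (pow_ne_zero _ hX), fun P hP => by
        rw [P.ord_pow, P.ord_pow, ord_zeroInf hP, mul_zero, mul_zero]⟩
      sum := fun i => by
        rw [Polynomial.aeval_eq_sum_range' (hr i), ← Fin.sum_univ_eq_sum_range
          (fun j => (p i).coeff j • ((RatFunc.X : RatFunc k) ^ (B.toNat + 1)) ^ j) r]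
        exact Finset.sum_congr rfl fun j _ => Algebra.smul_def _ _ }
    (aeval_ne hG hq)
  have h3 := Int.self_le_toNat B
  push_cast at h1
  omega

/-- **Modulo a closed subset.** -/
theorem mod_tfae {Φ : Set (MvPolynomial (Fin (n + 1)) k)} {d : ℕ}
    (hΦ : ∀ F ∈ Φ, ∃ e, e ≤ d ∧ F.IsHomogeneous e) (G : MvPolynomial (Fin (n + 1)) k) :
    [∀ r, ∃ A, LinearBound Φ G r A,
      ∀ r (L : Type) [Field L] [Algebra k L] [IsFF k L] (S : Finset (Place k L)),
        ∃ B, BoundOn Φ G r L S B,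
      ∀ r, ∃ B, BoundOn Φ G r (RatFunc k) (zeroInf k) B,
      ∀ p, RatCurve Φ p → aeval p G = 0].TFAE := by
  tfae_have 1 → 2 := by
    intro h r L _ _ _ S
    obtain ⟨A, hA⟩ := h r
    refine ⟨A * max (canDeg k L + S.card) 0, fun v u f hf hG => ?_⟩
    have h1 := hA L S _ u f hf hG
    have h2 : ∀ j i, hgt k (algebraMap k L (v j i)) = 0 := fun j i =>
      hgt_algebraic (isAlgebraic_algebraMap _)
    simpa only [h2, Finset.sum_const_zero, add_zero] using h1
  tfae_have 2 → 3 := fun h r => h r (RatFunc k) (zeroInf k)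
  tfae_have 3 → 4 := by
    intro h p hp
    by_contra hG
    obtain ⟨B, hB⟩ := h (∑ i, (p i).natDegree + 1)
    refine unbounded hp hG (fun i => ?_) hB
    exact Nat.lt_succ_of_le (Finset.single_le_sum (f := fun i => (p i).natDegree)
      (fun _ _ => Nat.zero_le _) (Finset.mem_univ i))
  tfae_have 4 → 1 := by
    intro h r
    obtain ⟨A, B, hAB⟩ := uniform n d r
    exact ⟨A, hAB k Φ hΦ G fun p _ hp => h p hp⟩
  tfae_finish

/-- **One exceptional set.** -/
theorem uniruled_iff {Φ : Set (MvPolynomial (Fin (n + 1)) k)} {d : ℕ}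
    (hΦ : ∀ F ∈ Φ, ∃ e, e ≤ d ∧ F.IsHomogeneous e) (hprime : (Ideal.span Φ).IsPrime) :
    ¬ Uniruled (Ideal.span Φ) ↔ ∀ r, ∃ G : MvPolynomial (Fin (n + 1)) k,
      (∃ e, G.IsHomogeneous e) ∧ G ∉ Ideal.span Φ ∧ ∃ A, LinearBound Φ G r A := by
  classical
  constructor
  · intro hnu r
    obtain ⟨A, Λ, h⟩ := core_mov n d r
    choose Gf hG1 hG2 hG3 using fun (t : (Fin (r * (n + 1)) → ℕ) × Fin (n + 1) × Fin (n + 1) × ℕ) =>
      exists_G (r := r * (n + 1)) Φ hprime hnu t.1 t.2.1 t.2.2.1 t.2.2.2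
    let T : Finset ((Fin (r * (n + 1)) → ℕ) × Fin (n + 1) × Fin (n + 1) × ℕ) :=
      Λ ×ˢ (Finset.univ ×ˢ (Finset.univ ×ˢ Finset.range (∑ l ∈ Λ, ∑ j, l j + 1)))
    choose eG heG using hG1
    refine ⟨∏ t ∈ T, Gf t, ⟨_, IsHomogeneous.prod T Gf eG fun t _ => heG t⟩, ?_, A, ?_⟩
    · rw [hprime.prod_mem_iff]
      push Not
      exact fun t _ => hG2 t
    · intro L _ _ _ S V u f hf hfG
      rcases h k Φ hΦ L S V u f hf.unit hf.sum hf.ne hf.mem with h1 | ⟨c, l, hl, hc, hz, hN⟩
      · exact h1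
      · exfalso
        obtain ⟨i, i', hN⟩ := hN
        obtain ⟨j, hj⟩ := exists_nc c l i i' (by rw [hc i, hc i']; exact hN)
        have h2 := hG3 (l, i, i', l j) L c hz hj
        have hc' : (fun i => ∑ j, c j i) = f := funext hc
        rw [hc'] at h2
        apply hfG
        rw [map_prod]
        refine Finset.prod_eq_zero (i := (l, i, i', l j)) ?_ h2
        refine Finset.mem_product.2 ⟨hl, Finset.mem_product.2 ⟨Finset.mem_univ _,
          Finset.mem_product.2 ⟨Finset.mem_univ _, Finset.mem_range.2 (Nat.lt_succ_of_le ?_)⟩⟩⟩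
        calc l j ≤ ∑ j, l j := Finset.single_le_sum (f := l) (fun _ _ => Nat.zero_le _)
              (Finset.mem_univ j)
          _ ≤ _ := Finset.single_le_sum (f := fun l : Fin (r * (n + 1)) → ℕ => ∑ j, l j)
              (fun _ _ => Nat.zero_le _) hl
  · rintro h ⟨L, iL, iA, p, hp0, hpG, i, j, hN⟩
    let D : ℕ := ∑ i, (p i).natDegree + 1
    have hD : ∀ i, (p i).natDegree < D := fun i =>
      Nat.lt_succ_of_le (Finset.single_le_sum (f := fun i => (p i).natDegree)
        (fun _ _ => Nat.zero_le _) (Finset.mem_univ i))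
    obtain ⟨G, hGh, hGI, A, hA⟩ := h D
    have hpc : p = cur (fun (m : Fin D) i => (p i).coeff m) (fun m => (m : ℕ)) := by
      funext i
      unfold cur
      rw [Fin.sum_univ_eq_sum_range (fun m => Polynomial.C ((p i).coeff m) *
        (Polynomial.X : Polynomial L) ^ m) D]
      exact (p i).as_sum_range_C_mul_X_pow' (hD i)
    have hev : ∀ i, (p i).eval 1 = ∑ m : Fin D, (p i).coeff m := by
      intro i
      conv_lhs => rw [hpc]
      exact cur_eval_one _ _ _
    obtain ⟨c', hz', hG', hN'⟩ := spec Φ G (fun (m : Fin D) i => (p i).coeff m)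
      (fun m => (m : ℕ)) (fun F hF => by rw [← hpc]; exact hp0 F (Ideal.subset_span hF))
      (by
        have h1 := hpG G hGh hGI
        have h2 : (fun i => (p i).eval 1) = fun i => ∑ m : Fin D, (p i).coeff m := funext hev
        rw [h2] at h1
        exact h1)
      ⟨i, j, by rw [← hpc, ← hev, ← hev]; exact hN⟩
    refine unbounded (ratCurve_cur hz' hN') (aeval_cur_ne hG') (r := D) (fun i => ?_)
      (B := A * max (canDeg k (RatFunc k) + (zeroInf k).card) 0) ?_
    · exact lt_of_le_of_lt (natDegree_cur (B := D - 1) (fun m => by have := m.2; omega) i)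
        (by show D - 1 < D; omega)
    · intro v u f hf hG
      have h1 := hA (RatFunc k) (zeroInf k) _ u f hf hG
      have h2 : ∀ j i, hgt k (algebraMap k (RatFunc k) (v j i)) = 0 := fun j i =>
        hgt_algebraic (isAlgebraic_algebraMap _)
      simpa only [h2, Finset.sum_const_zero, add_zero] using h1

end Pool.Agent.J6H92.SU
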