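import Pool.Agent.J6H92.SU.Defs
import Pool.Agent.W602.GT.Gm

/-!
# Subvarieties of general type and boundedness
-/

set_option autoImplicit false

open FF MvPolynomial Pool.Agent.W603.LV Pool.Agent.W603.PV
open Pool.Agent.W602.GT (SubVar GeneralType val coords IsForm rational_sub)

namespace Pool.Agent.J6H92.SU

variable {k : Type} [Field k] [IsAlgClosed k] [CharZero k] {n : ℕ}

/-- All closed subvarieties of positive dimension of `X = {F = 0 for all F ∈ Φ}` which are not
contained in `G = 0` are of general type. (The closed subvarieties are given by their function fields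
and generic points.) -/
def GeneralOff (Φ : Set (MvPolynomial (Fin (n + 1)) k)) (G : MvPolynomial (Fin (n + 1)) k) : Prop :=
  ∀ (K : Type) [Field K] [Algebra k K] (w : ℕ) (y : Fin (n + 1) → K), 1 ≤ w →
    SubVar (fun F : Φ => (F : MvPolynomial (Fin (n + 1)) k)) K w y → aeval y G ≠ 0 →
      GeneralType k K w

/-- The degrees of the morphisms from each smooth projective curve to `X` whose image is not
contained in `G = 0` are bounded. -/
def BoundedOff (Φ : Set (MvPolynomial (Fin (n + 1)) k)) (G : MvPolynomial (Fin (n + 1)) k) : Prop :=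
  ∀ (L : Type) [Field L] [Algebra k L] [IsFF k L], ∃ B : ℤ, ∀ f : Fin (n + 1) → L,
    (∃ j, f j ≠ 0) → (∀ F ∈ Φ, aeval f F = 0) → aeval f G ≠ 0 → pht k f ≤ B

theorem rat_of_general {Φ : Set (MvPolynomial (Fin (n + 1)) k)}
    (hΦ : ∀ F ∈ Φ, ∃ e, F.IsHomogeneous e) {G : MvPolynomial (Fin (n + 1)) k}
    (hG : ∃ e, G.IsHomogeneous e) (h : GeneralOff Φ G) {p : Fin (n + 1) → Polynomial k}
    (hp : RatCurve Φ p) : aeval p G = 0 := by
  by_contra hGp
  obtain ⟨hz, i0, j0, hj0, hij⟩ := hp
  let y : Fin (n + 1) → RatFunc k := fun i => algebraMap (Polynomial k) (RatFunc k) (p i)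
  have hinj : Function.Injective (algebraMap (Polynomial k) (RatFunc k)) :=
    RatFunc.algebraMap_injective k
  have hj0' : y j0 ≠ 0 := by
    intro h0
    exact hj0 (hinj (by rw [map_zero]; exact h0))
  have hval : ∀ F : MvPolynomial (Fin (n + 1)) k, aeval y F =
      algebraMap (Polynomial k) (RatFunc k) (aeval p F) := by
    intro F
    have h1 := congrArg (fun f => f F) (comp_aeval (R := k) p
      (IsScalarTower.toAlgHom k (Polynomial k) (RatFunc k)))
    exact h1.symm
  have hmem : ∀ F : Φ, val y (F : MvPolynomial (Fin (n + 1)) k) = 0 := by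
    intro F
    show aeval y (F : MvPolynomial (Fin (n + 1)) k) = 0
    rw [hval, hz F F.2, map_zero]
  have hnc : coords k y ≠ ⊥ := by
    intro hbot
    have h1 : y i0 / y j0 ∈ coords k y :=
      IntermediateField.subset_adjoin k _ ⟨i0, j0, hj0', rfl⟩
    rw [hbot, IntermediateField.mem_bot] at h1
    obtain ⟨c, hc⟩ := h1
    apply hij c
    apply hinj
    rw [map_mul]
    have h2 : algebraMap (Polynomial k) (RatFunc k) (Polynomial.C c) =
        algebraMap k (RatFunc k) c := by
      rw [IsScalarTower.algebraMap_apply k (Polynomial k) (RatFunc k)]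
      rfl
    rw [h2, hc]
    change y i0 = y i0 / y j0 * y j0
    field_simp
  obtain ⟨y', hs, hgt, hG'⟩ := rational_sub (F := fun F : Φ => (F : MvPolynomial (Fin (n + 1)) k))
    (fun F => hΦ F F.2) y hj0' hmem hnc
  refine hgt (h _ 1 y' le_rfl hs fun h0 => hGp (hinj ?_))
  rw [map_zero, ← hval]
  exact hG' G hG h0

/-- Bounded or hyperbolic, modulo a closed subset, implies the linear bounds. -/
theorem linear_of {Φ : Set (MvPolynomial (Fin (n + 1)) k)} {d : ℕ}
    (hΦ : ∀ F ∈ Φ, ∃ e, e ≤ d ∧ F.IsHomogeneous e) {G : MvPolynomial (Fin (n + 1)) k}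
    (hG : ∃ e, G.IsHomogeneous e) (h : BoundedOff Φ G ∨ GeneralOff Φ G) (r : ℕ) :
    ∃ A, LinearBound Φ G r A := by
  have key : (∀ r (L : Type) [Field L] [Algebra k L] [IsFF k L] (S : Finset (Place k L)),
      ∃ B, BoundOn Φ G r L S B) ∨ (∀ p, RatCurve Φ p → aeval p G = 0) := by
    rcases h with h | h
    · left
      intro r L _ _ _ S
      obtain ⟨B, hB⟩ := h L
      exact ⟨B, fun v u f hf hG => hB f hf.ne hf.mem hG⟩
    · right
      exact fun p hp => rat_of_general (fun F hF => by
        obtain ⟨e, _, he⟩ := hΦ F hF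
        exact ⟨e, he⟩) hG h hp
  have h1 : ∀ r, ∃ A, LinearBound Φ G r A := by
    rcases key with h | h
    · exact ((mod_tfae hΦ G).out 1 0).1 h
    · exact ((mod_tfae hΦ G).out 3 0).1 h
  exact h1 r

end Pool.Agent.J6H92.SU
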