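import Pool.Agent.J6H92.SU.Core
import Pool.Agent.W603.LV.Lin

/-!
# The dichotomy
-/

set_option autoImplicit false

open FF MvPolynomial Pool.Agent.W603.LV Pool.Agent.W603.PV
open Pool.Agent.H533R3.SL (cur GU cur_eval_one)

namespace Pool.Agent.J6H92.SU

open Classical in
/-- a nonconstant weight which is orthogonal to all elements of `Q`, if there is one -/
noncomputable def wt {r : ℕ} (Q : Finset (Fin (r + 1) → ℤ)) : Fin (r + 1) → ℤ :=
  if h : ∃ b : Fin (r + 1) → ℤ, (∃ j, b j ≠ b 0) ∧ ∀ q ∈ Q, ∑ l, b l * q l = 0 then h.choose else 0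

theorem wt_spec {r : ℕ} {Q : Finset (Fin (r + 1) → ℤ)}
    (h : ∃ b : Fin (r + 1) → ℤ, (∃ j, b j ≠ b 0) ∧ ∀ q ∈ Q, ∑ l, b l * q l = 0) :
    (∃ j, wt Q j ≠ wt Q 0) ∧ ∀ q ∈ Q, ∑ l, wt Q l * q l = 0 := by
  classical
  unfold wt
  rw [dif_pos h]
  exact h.choose_spec

/-- the weight, shifted -/
noncomputable def wtN {r : ℕ} (Q : Finset (Fin (r + 1) → ℤ)) (j : Fin (r + 1)) : ℕ :=
  (wt Q j + ∑ i, |wt Q i|).toNat

theorem wtN_eq {r : ℕ} (Q : Finset (Fin (r + 1) → ℤ)) (j : Fin (r + 1)) :
    (wtN Q j : ℤ) = wt Q j + ∑ i, |wt Q i| := by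
  unfold wtN
  rw [Int.toNat_of_nonneg]
  have h1 : |wt Q j| ≤ ∑ i, |wt Q i| :=
    Finset.single_le_sum (f := fun i => |wt Q i|) (fun _ _ => abs_nonneg _) (Finset.mem_univ j)
  have h2 := neg_abs_le (wt Q j)
  linarith

variable {k L : Type} [Field k] [IsAlgClosed k] [CharZero k] [Field L] [Algebra k L] [IsFF k L]
  {n d r : ℕ}

theorem rigid_bound (Q : Finset (Fin (r + 1) → ℤ)) (hQ : ∀ q ∈ Q, ∑ l, q l = 0)
    (h : ¬ ∃ b : Fin (r + 1) → ℤ, (∃ j, b j ≠ b 0) ∧ ∀ q ∈ Q, ∑ l, b l * q l = 0)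
    (u : Fin (r + 1) → L) (hu : ∀ j, u j ≠ 0) {B : ℤ} (hB0 : 0 ≤ B)
    (hB : ∀ q ∈ Q, hgt k (mon u q) ≤ B) (j : Fin (r + 1)) :
    hgt k (u j / u 0) ≤ cst {0} Q j * B := by
  classical
  have hy : ∀ l, u l / u 0 ≠ 0 := fun l => div_ne_zero (hu l) (hu 0)
  by_cases hj : j = 0
  · rw [hj, div_self (hu 0), hgt_one]
    positivity
  · have hj' : j ∉ ({0} : Finset (Fin (r + 1))) := by
      rw [Finset.mem_singleton]
      exact hj
    refine hgt_le_cst (y := fun l => u l / u 0) hj' ?_ hy ?_ ?_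
    · rcases dich {0} Q j with h1 | ⟨b, hb, hb0, hbQ⟩
      · obtain ⟨d, c, hd, hc⟩ := h1
        exact ⟨c, d, hd, hc⟩
      · refine absurd ⟨b, ⟨j, ?_⟩, hbQ⟩ h
        rw [hb0 0 (Finset.mem_singleton_self 0)]
        exact hb
    · intro l hl
      rw [Finset.mem_singleton] at hl
      rw [hl]
      exact div_self (hu 0)
    · intro q hq
      have h1 : mon (fun l => u l / u 0) q = mon u q := by
        unfold mon
        have h2 : ∀ l, (u l / u 0) ^ q l = u l ^ q l * (u 0) ^ (-q l) := by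
          intro l
          rw [div_zpow, zpow_neg, div_eq_mul_inv]
        rw [Finset.prod_congr rfl fun l _ => h2 l, Finset.prod_mul_distrib]
        have h3 : ∀ s : Finset (Fin (r + 1)), ∏ l ∈ s, u 0 ^ (-q l) = u 0 ^ (∑ l ∈ s, -q l) := by
          intro s
          induction s using Finset.induction_on with
          | empty => simp
          | insert a s ha ih =>
            rw [Finset.prod_insert ha, Finset.sum_insert ha, zpow_add₀ (hu 0), ih]
        rw [h3, Finset.sum_neg_distrib, hQ q hq, neg_zero, zpow_zero, mul_one]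
      rw [h1]
      exact hB q hq

/-- The conclusion: a bound for the height or a nonconstant curve. -/
def Alt (FF : Set (MvPolynomial (Fin (n + 1)) k)) (Λ : Finset (Fin r → ℕ)) (B : ℤ)
    (f : Fin (n + 1) → L) : Prop :=
  pht k f ≤ B ∨ ∃ (c : Fin r → Fin (n + 1) → L) (l : Fin r → ℕ), l ∈ Λ ∧
    (∀ i, ∑ j, c j i = f i) ∧ (∀ F ∈ FF, aeval (cur c l) F = 0) ∧
    ∃ i i', cur c l i * Polynomial.C (f i') ≠ cur c l i' * Polynomial.C (f i)

omit [IsAlgClosed k] [CharZero k] [IsFF k L] in
/-- constant curves reduce the number of terms -/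
theorem reduce (V : Fin (r + 1) → Fin (n + 1) → k) (u : Fin (r + 1) → L) {s : L} (hs : s ≠ 0)
    (f : Fin (n + 1) → L) (hf : ∃ i, f i ≠ 0)
    (hfu : ∀ i, f i = ∑ j, s * (algebraMap k L (V j i) * u j)) (l : Fin (r + 1) → ℕ)
    (hl : ∃ j, l j ≠ l 0)
    (hconst : ∀ i i', cur (fun j i => s * (algebraMap k L (V j i) * u j)) l i *
      Polynomial.C (f i') = cur (fun j i => s * (algebraMap k L (V j i) * u j)) l i' *
        Polynomial.C (f i)) :
    ∃ (j' : Fin (r + 1)) (V' : Fin r → Fin (n + 1) → k) (s' : L), s' ≠ 0 ∧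
      ∀ i, f i = ∑ j, s' * (algebraMap k L (V' j i) * u (j'.succAbove j)) := by
  classical
  obtain ⟨i0, hi0⟩ := hf
  set p := cur (fun j i => s * (algebraMap k L (V j i) * u j)) l with hp
  have hp1 : ∀ i, (p i).eval 1 = f i := by
    intro i
    rw [hp, cur_eval_one, hfu i]
  have hne : p i0 ≠ 0 := by
    intro h0
    apply hi0
    rw [← hp1, h0, Polynomial.eval_zero]
  obtain ⟨w, hw⟩ : ∃ w, (p i0).coeff w ≠ 0 := by
    by_contra hcon
    push Not at hcon
    apply hne
    ext w
    rw [hcon w, Polynomial.coeff_zero]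
  have hcoef : ∀ i, (p i).coeff w = ∑ j, if l j = w then s * (algebraMap k L (V j i) * u j)
      else 0 := by
    intro i
    rw [hp]
    unfold cur
    rw [Polynomial.finsetSum_coeff]
    refine Finset.sum_congr rfl fun j _ => ?_
    rw [Polynomial.coeff_C_mul_X_pow]
    by_cases h : l j = w
    · rw [if_pos h.symm, if_pos h]
    · rw [if_neg (Ne.symm h), if_neg h]
  obtain ⟨j', hj'⟩ : ∃ j', l j' ≠ w := by
    by_contra hcon
    push Not at hcon
    obtain ⟨j, hj⟩ := hl
    exact hj ((hcon j).trans (hcon 0).symm)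
  have hc : ∀ i, f i = f i0 / (p i0).coeff w * (p i).coeff w := by
    intro i
    have h1 := congrArg (fun q : Polynomial L => q.coeff w) (hconst i i0)
    simp only [Polynomial.coeff_mul_C] at h1
    have h2 : (p i).coeff w * f i0 = (p i0).coeff w * f i := h1
    rw [div_mul_eq_mul_div, eq_div_iff hw]
    linear_combination -h2
  refine ⟨j', fun j i => if l (j'.succAbove j) = w then V (j'.succAbove j) i else 0,
    f i0 / (p i0).coeff w * s, mul_ne_zero (div_ne_zero hi0 hw) hs, fun i => ?_⟩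
  rw [hc i, hcoef i, Fin.sum_univ_succAbove _ j', if_neg hj', zero_add, Finset.mul_sum]
  refine Finset.sum_congr rfl fun j _ => ?_
  by_cases h : l (j'.succAbove j) = w
  · rw [if_pos h]
    simp only [if_pos h]
    ring
  · rw [if_neg h]
    simp only [if_neg h, map_zero]
    ring

theorem core (n d : ℕ) : ∀ r : ℕ, ∃ (A : ℕ) (Λ : Finset (Fin r → ℕ)),
    ∀ (k : Type) [Field k] [IsAlgClosed k] [CharZero k] (FF : Set (MvPolynomial (Fin (n + 1)) k)),
    (∀ F ∈ FF, ∃ e, e ≤ d ∧ F.IsHomogeneous e) →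
    ∀ (L : Type) [Field L] [Algebra k L] [IsFF k L] (S : Finset (Place k L))
      (V : Fin r → Fin (n + 1) → k) (u : Fin r → L) (s : L) (f : Fin (n + 1) → L), s ≠ 0 →
      (∀ j, u j ≠ 0) → (∀ j, ∀ P ∉ S, P.ord (u j) = 0) →
      (∀ i, f i = ∑ j, s * (algebraMap k L (V j i) * u j)) → (∃ i, f i ≠ 0) →
      (∀ F ∈ FF, aeval f F = 0) →
      Alt FF Λ (A * max (canDeg k L + S.card) 0) f := by
  classical
  intro r
  induction r with
  | zero =>
    refine ⟨0, ∅, ?_⟩
    intro k _ _ _ FF _ L _ _ _ S V u s f _ _ _ hfu ⟨i, hi⟩ _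
    exact absurd (by rw [hfu i]; simp) hi
  | succ r ih =>
    obtain ⟨A, Λ, h⟩ := ih
    let A1 : ℕ := ∑ Q ∈ (QQ d (r + 1)).powerset, ∑ j, cst {0} Q j
    refine ⟨A + 2 * (n + 1) * (A1 * K0 d (r + 1)),
      (QQ d (r + 1)).powerset.image wtN ∪
        (Finset.univ ×ˢ Λ).image (fun p : Fin (r + 1) × (Fin r → ℕ) => p.1.insertNth 0 p.2), ?_⟩
    intro k _ _ _ FF hFF L _ _ _ S V u s f hs hu huS hfu hf hfF
    set M : ℤ := max (canDeg k L + S.card) 0 with hM
    have hM0 : 0 ≤ M := le_max_right _ _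
    let Q : Finset (Fin (r + 1) → ℤ) := (QQ d (r + 1)).filter fun q =>
      hgt k (mon u q) ≤ K0 d (r + 1) * M
    have hQsub : Q ∈ (QQ d (r + 1)).powerset := Finset.mem_powerset.2 (Finset.filter_subset _ _)
    have hQ0 : ∀ q ∈ Q, ∑ l, q l = 0 := fun q hq => QQ_sum (Finset.mem_filter.1 hq).1
    have hrel : ∀ F ∈ FF, aeval (fun i => ∑ j, algebraMap k L (V j i) * u j) F = 0 := by
      intro F hF
      obtain ⟨e, _, he⟩ := hFF F hF
      have h1 : f = fun i => s * ∑ j, algebraMap k L (V j i) * u j := by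
        funext i
        rw [hfu i, Finset.mul_sum]
      have h2 := hfF F hF
      rw [h1, aeval_scale he] at h2
      exact (mul_eq_zero.1 h2).resolve_left (pow_ne_zero _ hs)
    by_cases hex : ∃ b : Fin (r + 1) → ℤ, (∃ j, b j ≠ b 0) ∧ ∀ q ∈ Q, ∑ l, b l * q l = 0
    · obtain ⟨hw1, hw2⟩ := wt_spec hex
      have hwN : ∃ j, wtN Q j ≠ wtN Q 0 := by
        obtain ⟨j, hj⟩ := hw1
        refine ⟨j, fun h0 => hj ?_⟩
        have h1 : (wtN Q j : ℤ) = wtN Q 0 := by rw [h0]
        rw [wtN_eq, wtN_eq] at h1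
        linarith
      have hcur : ∀ F ∈ FF,
          aeval (cur (fun j i => s * (algebraMap k L (V j i) * u j)) (wtN Q)) F = 0 := by
        intro F hF
        obtain ⟨e, _, he⟩ := hFF F hF
        refine cur_zero V u s F he (wt Q) (wtN Q) _ (wtN_eq Q) fun v => ?_
        refine blocks hFF S V u hu huS hrel (wt Q) (fun q hq hq' => hw2 q ?_) F hF v
        exact Finset.mem_filter.2 ⟨hq, hq'⟩
      by_cases hconst : ∀ i i', cur (fun j i => s * (algebraMap k L (V j i) * u j)) (wtN Q) i *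
          Polynomial.C (f i') = cur (fun j i => s * (algebraMap k L (V j i) * u j)) (wtN Q) i' *
            Polynomial.C (f i)
      · obtain ⟨j', V', s', hs', hf'⟩ := reduce V u hs f hf hfu (wtN Q) hwN hconst
        rcases h k FF hFF L S V' (fun j => u (j'.succAbove j)) s' f hs' (fun j => hu _)
          (fun j => huS _) hf' hf hfF with h1 | ⟨c, l, hlΛ, hc1, hc2, hc3⟩
        · left
          refine h1.trans ?_
          refine mul_le_mul_of_nonneg_right ?_ hM0
          push_cast
          have : (0 : ℤ) ≤ 2 * (n + 1) * (A1 * K0 d (r + 1)) := by positivity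
          linarith
        · right
          have hcu : cur (j'.insertNth 0 c : Fin (r + 1) → Fin (n + 1) → L)
              (j'.insertNth 0 l : Fin (r + 1) → ℕ) = cur c l := by
            funext i
            unfold cur
            rw [Fin.sum_univ_succAbove _ j']
            simp
          refine ⟨j'.insertNth 0 c, j'.insertNth 0 l, ?_, ?_, ?_, ?_⟩
          · refine Finset.mem_union_right _ (Finset.mem_image.2 ⟨(j', l), ?_, rfl⟩)
            exact Finset.mem_product.2 ⟨Finset.mem_univ _, hlΛ⟩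
          · intro i
            rw [← hc1 i, Fin.sum_univ_succAbove _ j']
            simp
          · rw [hcu]
            exact hc2
          · rw [hcu]
            exact hc3
      · push Not at hconst
        right
        refine ⟨_, wtN Q, Finset.mem_union_left _ (Finset.mem_image_of_mem _ hQsub),
          fun i => (hfu i).symm, hcur, hconst⟩
    · left
      have h1 := fun j => rigid_bound Q hQ0 hex u hu (B := K0 d (r + 1) * M) (by positivity)
        (fun q hq => (Finset.mem_filter.1 hq).2) j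
      have hg : ∃ i, (fun i => ∑ j, algebraMap k L (V j i) * (u j / u 0)) i ≠ 0 := by
        obtain ⟨i, hi⟩ := hf
        refine ⟨i, fun h0 => hi ?_⟩
        have h0' : ∑ j, algebraMap k L (V j i) * (u j / u 0) = 0 := h0
        rw [hfu i]
        have h2 : ∑ j, s * (algebraMap k L (V j i) * u j) =
            s * u 0 * ∑ j, algebraMap k L (V j i) * (u j / u 0) := by
          rw [Finset.mul_sum]
          refine Finset.sum_congr rfl fun j _ => ?_
          field_simp [hu 0]
        rw [h2, h0', mul_zero]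
      have h2 := pht_bound V (fun j => u j / u 0) _ hg (fun i => rfl)
      have h3 : f = fun i => (s * u 0) * (fun i => ∑ j, algebraMap k L (V j i) * (u j / u 0)) i := by
        funext i
        rw [hfu i]
        show _ = s * u 0 * ∑ j, algebraMap k L (V j i) * (u j / u 0)
        rw [Finset.mul_sum]
        refine Finset.sum_congr rfl fun j _ => ?_
        field_simp [hu 0]
      rw [h3, pht_scale hg (mul_ne_zero hs (hu 0))]
      refine h2.trans ?_
      have h4 : ∑ j, hgt k (u j / u 0) ≤ (A1 : ℤ) * (K0 d (r + 1) * M) := by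
        refine (Finset.sum_le_sum fun j _ => h1 j).trans ?_
        rw [← Finset.sum_mul]
        refine mul_le_mul_of_nonneg_right ?_ (by positivity)
        have h5 : ∑ j, cst {0} Q j ≤ A1 := Finset.single_le_sum
          (f := fun Q : Finset (Fin (r + 1) → ℤ) => ∑ j, cst {0} Q j) (fun _ _ => Nat.zero_le _) hQsub
        exact_mod_cast h5
      have h6 : (0 : ℤ) ≤ (2 * (n + 1) : ℕ) := by positivity
      refine (mul_le_mul_of_nonneg_left h4 h6).trans ?_
      push_cast
      have h7 : (0 : ℤ) ≤ A * M := by positivity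
      nlinarith

end Pool.Agent.J6H92.SU
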