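import Pool.Agent.J6H92.SU.Ind

/-!
# The dichotomy with coefficients in the function field
-/

set_option autoImplicit false

open FF MvPolynomial Pool.Agent.W603.LV Pool.Agent.W603.PV
open Pool.Agent.H533R3.SL (cur GU cur_eval_one)

namespace Pool.Agent.J6H92.SU

theorem supp_card {k L : Type} [Field k] [IsAlgClosed k] [CharZero k] [Field L] [Algebra k L]
    [IsFF k L] {ι : Type} [Fintype ι] (V : ι → L) :
    ∃ T : Finset (Place k L), (∀ t, ∀ P ∉ T, P.ord (V t) = 0) ∧
      (T.card : ℤ) ≤ 2 * ∑ t, hgt k (V t) := by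
  classical
  obtain ⟨T0, hT0⟩ := exists_supp (k := k) (Finset.univ : Finset ι) V
  refine ⟨T0.filter fun P => ∃ t, P.ord (V t) ≠ 0, ?_, ?_⟩
  · intro t P hP
    by_contra h
    exact hP (Finset.mem_filter.2 ⟨hT0 t (Finset.mem_univ _) P h, t, h⟩)
  · have h1 := card_poles (k := k) (Finset.univ : Finset (ι ⊕ ι))
      (Sum.elim V fun t => (V t)⁻¹) (T0.filter fun P => ∃ t, P.ord (V t) ≠ 0) (by
        intro P hP
        obtain ⟨t, ht⟩ := (Finset.mem_filter.1 hP).2
        rcases lt_or_gt_of_ne ht with h | h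
        · exact ⟨Sum.inl t, Finset.mem_univ _, h⟩
        · refine ⟨Sum.inr t, Finset.mem_univ _, ?_⟩
          show P.ord (V t)⁻¹ < 0
          rw [P.ord_inv]
          omega)
    refine h1.trans (le_of_eq ?_)
    rw [Fintype.sum_sum_type]
    simp only [Sum.elim_inl, Sum.elim_inr, hgt_inv]
    ring

theorem core_mov (n d r : ℕ) : ∃ (A : ℕ) (Λ : Finset (Fin (r * (n + 1)) → ℕ)),
    ∀ (k : Type) [Field k] [IsAlgClosed k] [CharZero k] (FF : Set (MvPolynomial (Fin (n + 1)) k)),
    (∀ F ∈ FF, ∃ e, e ≤ d ∧ F.IsHomogeneous e) →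
    ∀ (L : Type) [Field L] [Algebra k L] [IsFF k L] (S : Finset (Place k L))
      (V : Fin r → Fin (n + 1) → L) (u : Fin r → L) (f : Fin (n + 1) → L),
      (∀ j, u j ≠ 0 ∧ ∀ P ∉ S, P.ord (u j) = 0) →
      (∀ i, f i = ∑ j, V j i * u j) → (∃ i, f i ≠ 0) → (∀ F ∈ FF, aeval f F = 0) →
      Alt FF Λ (A * (max (canDeg k L + S.card) 0 + ∑ j, ∑ i, hgt k (V j i))) f := by
  classical
  obtain ⟨A, Λ, h⟩ := core n d (r * (n + 1))
  refine ⟨2 * A, Λ, ?_⟩
  intro k _ _ _ FF hFF L _ _ _ S V u f hu hfu hf hfF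
  obtain ⟨T, hT, hTc⟩ := supp_card (k := k) (fun t : Fin r × Fin (n + 1) => V t.1 t.2)
  let e : Fin r × Fin (n + 1) ≃ Fin (r * (n + 1)) := finProdFinEquiv
  have hsum : ∀ i, f i = ∑ t : Fin (r * (n + 1)), (1 : L) * (algebraMap k L
      (if V (e.symm t).1 (e.symm t).2 ≠ 0 ∧ i = (e.symm t).2 then (1 : k) else 0) *
      (if V (e.symm t).1 (e.symm t).2 = 0 then 1 else
        V (e.symm t).1 (e.symm t).2 * u (e.symm t).1)) := by
    intro i
    rw [hfu i, ← e.sum_comp]
    simp only [Equiv.symm_apply_apply]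
    rw [Fintype.sum_prod_type]
    refine Finset.sum_congr rfl fun j _ => ?_
    rw [Finset.sum_eq_single i]
    · by_cases hV : V j i = 0
      · rw [hV]
        simp
      · simp [hV]
    · intro i' _ hi'
      rw [if_neg (fun h => hi' h.2.symm), map_zero, zero_mul, mul_zero]
    · intro h
      exact absurd (Finset.mem_univ i) h
  have h1 := h k FF hFF L (S ∪ T) (fun t i => if V (e.symm t).1 (e.symm t).2 ≠ 0 ∧
      i = (e.symm t).2 then (1 : k) else 0)
    (fun t => if V (e.symm t).1 (e.symm t).2 = 0 then 1 else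
      V (e.symm t).1 (e.symm t).2 * u (e.symm t).1) 1 f one_ne_zero ?_ ?_ hsum hf hfF
  · rcases h1 with h1 | h1
    · left
      refine h1.trans ?_
      have h2 : ((S ∪ T).card : ℤ) ≤ S.card + T.card := by exact_mod_cast Finset.card_union_le S T
      have h3 : ∑ t : Fin r × Fin (n + 1), hgt k (V t.1 t.2) = ∑ j, ∑ i, hgt k (V j i) :=
        Fintype.sum_prod_type _
      rw [h3] at hTc
      have h4 : 0 ≤ ∑ j, ∑ i, hgt k (V j i) :=
        Finset.sum_nonneg fun j _ => Finset.sum_nonneg fun i _ => hgt_nonneg _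
      have h5 : max (canDeg k L + ((S ∪ T).card : ℤ)) 0 ≤
          2 * (max (canDeg k L + S.card) 0 + ∑ j, ∑ i, hgt k (V j i)) := by
        have h6 := le_max_left (canDeg k L + S.card) 0
        have h7 := le_max_right (canDeg k L + S.card) 0
        refine max_le ?_ ?_ <;> linarith
      have h8 : (0 : ℤ) ≤ A := by positivity
      refine (mul_le_mul_of_nonneg_left h5 h8).trans (le_of_eq ?_)
      push_cast
      ring
    · exact Or.inr h1
  · intro t
    by_cases hV : V (e.symm t).1 (e.symm t).2 = 0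
    · rw [if_pos hV]
      exact one_ne_zero
    · rw [if_neg hV]
      exact mul_ne_zero hV (hu _).1
  · intro t P hP
    rw [Finset.mem_union, not_or] at hP
    by_cases hV : V (e.symm t).1 (e.symm t).2 = 0
    · rw [if_pos hV]
      exact P.ord_one
    · rw [if_neg hV, P.ord_mul hV (hu _).1, (hu _).2 P hP.1, add_zero]
      exact hT (e.symm t) P hP.2

end Pool.Agent.J6H92.SU
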