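import Pool.Agent.H533R3.SL.Cur

/-!
# Specialisation of curves
-/

set_option autoImplicit false

open MvPolynomial
open Pool.Agent.H533R3.SL (cur cur_eval_one)

namespace Pool.Agent.J6H92.SU

variable {k : Type} [Field k] {n r : ℕ}

/-- the ring of the coefficients of the generic curve -/
abbrev RR (k : Type) [Field k] (n r : ℕ) : Type := MvPolynomial (Fin r × Fin (n + 1)) k

/-- the coefficients of the generic curve -/
noncomputable def ct (k : Type) [Field k] (n r : ℕ) : Fin r → Fin (n + 1) → RR k n r :=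
  fun j i => X (j, i)

theorem cur_map {R : Type} [CommRing R] [Algebra k R] {L : Type} [Field L] [Algebra k L]
    (s : R →ₐ[k] L) (c : Fin r → Fin (n + 1) → R) (l : Fin r → ℕ) (i : Fin (n + 1)) :
    Polynomial.mapAlgHom s (cur c l i) = cur (fun j i => s (c j i)) l i := by
  unfold cur
  rw [map_sum]
  refine Finset.sum_congr rfl fun j _ => ?_
  simp

theorem aeval_map {R : Type} [CommRing R] [Algebra k R] {L : Type} [Field L] [Algebra k L]
    (s : R →ₐ[k] L) (c : Fin r → Fin (n + 1) → R) (l : Fin r → ℕ)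
    (F : MvPolynomial (Fin (n + 1)) k) :
    Polynomial.mapAlgHom s (aeval (cur c l) F) = aeval (cur (fun j i => s (c j i)) l) F := by
  have h1 := congrArg (fun f => f F) (comp_aeval (R := k) (cur c l) (Polynomial.mapAlgHom s))
  refine Eq.trans h1 ?_
  show aeval (fun i => Polynomial.mapAlgHom s (cur c l i)) F = _
  congr 2
  funext i
  exact cur_map s c l i

theorem aeval_sum_map {R : Type} [CommRing R] [Algebra k R] {L : Type} [Field L] [Algebra k L]
    (s : R →ₐ[k] L) (c : Fin r → Fin (n + 1) → R) (G : MvPolynomial (Fin (n + 1)) k) :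
    s (aeval (fun i => ∑ j, c j i) G) = aeval (fun i => ∑ j, s (c j i)) G := by
  have h1 := congrArg (fun f => f G) (comp_aeval (R := k) (fun i => ∑ j, c j i) s)
  refine Eq.trans h1 ?_
  show aeval (fun i => s (∑ j, c j i)) G = _
  congr 2
  funext i
  rw [map_sum]

/-- the coefficient which is nonzero for nonconstant curves -/
noncomputable def nc {R : Type} [CommRing R] (c : Fin r → Fin (n + 1) → R) (l : Fin r → ℕ)
    (i i' : Fin (n + 1)) (w : ℕ) : R :=
  (cur c l i * Polynomial.C (∑ j, c j i') - cur c l i' * Polynomial.C (∑ j, c j i)).coeff w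

theorem nc_map {R : Type} [CommRing R] [Algebra k R] {L : Type} [Field L] [Algebra k L]
    (s : R →ₐ[k] L) (c : Fin r → Fin (n + 1) → R) (l : Fin r → ℕ)
    (i i' : Fin (n + 1)) (w : ℕ) : s (nc c l i i' w) = nc (fun j i => s (c j i)) l i i' w := by
  have h1 : s (nc c l i i' w) = (Polynomial.mapAlgHom s (cur c l i * Polynomial.C (∑ j, c j i') -
      cur c l i' * Polynomial.C (∑ j, c j i))).coeff w := by
    rw [Polynomial.coe_mapAlgHom, Polynomial.coeff_map]
    rfl
  rw [h1, map_sub, map_mul, map_mul, cur_map, cur_map]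
  unfold nc
  congr 3
  · simp [map_sum]
  · simp [map_sum]

theorem exists_nc {R : Type} [CommRing R] (c : Fin r → Fin (n + 1) → R) (l : Fin r → ℕ)
    (i i' : Fin (n + 1))
    (h : cur c l i * Polynomial.C (∑ j, c j i') ≠ cur c l i' * Polynomial.C (∑ j, c j i)) :
    ∃ j, nc c l i i' (l j) ≠ 0 := by
  classical
  by_contra hcon
  push Not at hcon
  apply h
  rw [← sub_eq_zero]
  ext w
  rw [Polynomial.coeff_zero]
  by_cases hw : ∃ j, l j = w
  · obtain ⟨j, rfl⟩ := hw
    exact hcon j
  · push Not at hw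
    rw [Polynomial.coeff_sub, Polynomial.coeff_mul_C, Polynomial.coeff_mul_C]
    have h0 : ∀ i, (cur c l i).coeff w = 0 := by
      intro i
      unfold cur
      rw [Polynomial.finsetSum_coeff]
      refine Finset.sum_eq_zero fun j _ => ?_
      rw [Polynomial.coeff_C_mul_X_pow, if_neg (fun h => hw j h.symm)]
    rw [h0, h0, zero_mul, zero_mul, sub_zero]

theorem nc_ne {R : Type} [CommRing R] (c : Fin r → Fin (n + 1) → R) (l : Fin r → ℕ)
    (i i' : Fin (n + 1)) (w : ℕ) (h : nc c l i i' w ≠ 0) :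
    cur c l i * Polynomial.C (∑ j, c j i') ≠ cur c l i' * Polynomial.C (∑ j, c j i) := by
  intro h0
  apply h
  unfold nc
  rw [h0, sub_self, Polynomial.coeff_zero]

/-- **Specialisation.** -/
theorem spec [IsAlgClosed k] (FF : Set (MvPolynomial (Fin (n + 1)) k))
    (G : MvPolynomial (Fin (n + 1)) k) {L : Type} [Field L] [Algebra k L]
    (c : Fin r → Fin (n + 1) → L) (l : Fin r → ℕ) (hz : ∀ F ∈ FF, aeval (cur c l) F = 0)
    (hG : aeval (fun i => ∑ j, c j i) G ≠ 0)
    (hN : ∃ i i', cur c l i * Polynomial.C (∑ j, c j i') ≠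
      cur c l i' * Polynomial.C (∑ j, c j i)) :
    ∃ c' : Fin r → Fin (n + 1) → k, (∀ F ∈ FF, aeval (cur c' l) F = 0) ∧
      aeval (fun i => ∑ j, c' j i) G ≠ 0 ∧
      ∃ i i', cur c' l i * Polynomial.C (∑ j, c' j i') ≠
        cur c' l i' * Polynomial.C (∑ j, c' j i) := by
  obtain ⟨i, i', hN⟩ := hN
  obtain ⟨w, hw⟩ := exists_nc c l i i' hN
  let s : RR k n r →ₐ[k] L := aeval (fun q : Fin r × Fin (n + 1) => c q.1 q.2)
  have hsc : (fun j i => s (ct k n r j i)) = c := by
    funext j i
    exact aeval_X (fun q : Fin r × Fin (n + 1) => c q.1 q.2) (j, i)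
  let P : Ideal (RR k n r) := RingHom.ker s.toRingHom
  have hP : P.IsPrime := RingHom.ker_isPrime _
  have hnot : nc (ct k n r) l i i' (l w) * aeval (fun i => ∑ j, ct k n r j i) G ∉ P := by
    intro h0
    have h1 : s (nc (ct k n r) l i i' (l w) * aeval (fun i => ∑ j, ct k n r j i) G) = 0 := h0
    rw [map_mul, nc_map, aeval_sum_map, hsc] at h1
    have h2 : aeval (fun i => ∑ j, s (ct k n r j i)) G = aeval (fun i => ∑ j, c j i) G := by
      rw [← hsc]
    rw [h2] at h1
    exact mul_ne_zero hw hG h1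
  rw [← IsPrime.vanishingIdeal_zeroLocus (K := k) P, mem_vanishingIdeal_iff] at hnot
  push Not at hnot
  obtain ⟨x, hx, hne⟩ := hnot
  let t : RR k n r →ₐ[k] k := aeval x
  have ht : (fun j i => t (ct k n r j i)) = fun j i => x (j, i) := by
    funext j i
    exact aeval_X x (j, i)
  have h3 : t (nc (ct k n r) l i i' (l w) * aeval (fun i => ∑ j, ct k n r j i) G) ≠ 0 := hne
  rw [map_mul, nc_map, aeval_sum_map, ht] at h3
  have h4 : aeval (fun i => ∑ j, t (ct k n r j i)) G = aeval (fun i => ∑ j, x (j, i)) G := by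
    have h5 : ∀ j i, t (ct k n r j i) = x (j, i) := fun j i => congrFun (congrFun ht j) i
    simp only [h5]
  rw [h4] at h3
  refine ⟨fun j i => x (j, i), fun F hF => ?_, right_ne_zero_of_mul h3, i, i',
    nc_ne _ _ _ _ _ (left_ne_zero_of_mul h3)⟩
  have h6 := aeval_map t (ct k n r) l F
  rw [ht] at h6
  rw [← h6]
  ext m
  rw [Polynomial.coe_mapAlgHom, Polynomial.coeff_map, Polynomial.coeff_zero]
  have h7 : (aeval (cur (ct k n r) l) F).coeff m ∈ P := by
    show s _ = 0
    have h8 := aeval_map s (ct k n r) l F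
    rw [hsc, hz F hF] at h8
    have h9 := congrArg (fun q : Polynomial L => q.coeff m) h8
    simp only [Polynomial.coe_mapAlgHom, Polynomial.coeff_map, Polynomial.coeff_zero] at h9
    exact h9
  exact (mem_zeroLocus_iff.1 hx) _ h7

end Pool.Agent.J6H92.SU
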